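import Pool.Agent.helper81.CX.Spec2

/-!
# cx, row ROM: rotations preserve the product of two Gaussian measures
-/

set_option autoImplicit false

open MeasureTheory Set Filter Topology
open scoped ENNReal
open Pool.Agent.helper81.CW

namespace Pool.Agent.CX

theorem ROM_angle (α β : ℝ) (h : α ^ 2 + β ^ 2 = 1) : ∃ θ : ℝ, α = Real.cos θ ∧ β = Real.sin θ := by
  have hn : ‖(⟨α, β⟩ : ℂ)‖ = 1 := by
    have h1 : ‖(⟨α, β⟩ : ℂ)‖ ^ 2 = 1 := by
      rw [← Complex.normSq_eq_norm_sq, Complex.normSq_mk]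
      linarith
    have h2 : 0 ≤ ‖(⟨α, β⟩ : ℂ)‖ := norm_nonneg _
    nlinarith
  have hne : (⟨α, β⟩ : ℂ) ≠ 0 := by
    intro h0
    rw [h0, norm_zero] at hn
    exact zero_ne_one hn
  refine ⟨Complex.arg ⟨α, β⟩, ?_, ?_⟩
  · rw [Complex.cos_arg hne, hn, div_one]
  · rw [Complex.sin_arg, hn, div_one]

theorem ROM (hG1 : G1_stmt) (hROT : ROT_stmt) : ROM_stmt := by
  intro n α β h
  have hprob : IsProbabilityMeasure (gm n) := (hG1 n).1
  obtain ⟨θ, rfl, rfl⟩ := ROM_angle α β h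
  have hR : Measurable (fun p : E n × E n =>
      (Real.cos θ • p.1 + Real.sin θ • p.2, -Real.sin θ • p.1 + Real.cos θ • p.2)) := by
    fun_prop
  have h1 : MeasurePreserving (fun p : E n × E n =>
      (Real.cos θ • p.1 + Real.sin θ • p.2, -Real.sin θ • p.1 + Real.cos θ • p.2))
      ((gm n).prod (gm n)) ((gm n).prod (gm n)) := by
    refine ⟨hR, ?_⟩
    refine Measure.ext fun s hs => ?_
    have hF : Measurable (s.indicator (1 : E n × E n → ℝ≥0∞)) := measurable_one.indicator hs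
    have h2 : ∫⁻ p : E n × E n, s.indicator (1 : E n × E n → ℝ≥0∞)
        (Real.cos θ • p.1 + Real.sin θ • p.2, -Real.sin θ • p.1 + Real.cos θ • p.2) ∂((gm n).prod (gm n)) =
        ∫⁻ x, ∫⁻ y, s.indicator (1 : E n × E n → ℝ≥0∞)
        (Real.cos θ • x + Real.sin θ • y, -Real.sin θ • x + Real.cos θ • y) ∂(gm n) ∂(gm n) :=
      lintegral_prod _ (hF.comp hR).aemeasurable
    rw [← lintegral_indicator_one hs, ← lintegral_indicator_one hs, lintegral_map hF hR, h2,
      lintegral_prod _ hF.aemeasurable]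
    exact hROT n θ _ hF
  exact ⟨h1, measurePreserving_fst.comp h1⟩

end Pool.Agent.CX
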